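import Pool.Agent.helper66.EDP.Bridge

/-! # Tamagawa's essential dimension conjecture in genus zero

For all points (closed or not) of the moduli spaces `M_{0,n}` in characteristic `p`, all `n ≥ 3`: the tame fundamental
group determines the dimension of the closure of the point. -/

namespace Pool.Agent.Results.MP_ed0bc2_ag.GenusZeroEssentialDim

open Pool.Agent.helper66.EDP

/-- Let `k₁, k₂` be any algebraically closed fields of characteristic `p` and let `l_i` be an `m_i`-tuple of distinct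
elements of `k_i ∖ {0, 1}`, i.e. a geometric point of `M_{0,n_i}`, `n_i = m_i + 3`.  If the tame fundamental groups of
`P^1_{k_i} ∖ {∞, 0, 1, l_i}` are isomorphic as topological groups, then `n₁ = n₂` and the fields `F_p(l₁)`, `F_p(l₂)`
have the same transcendence degree over `F_p`. -/
theorem result : ∀ (p : ℕ) [Fact p.Prime] (k₁ k₂ : Type) [Field k₁] [Field k₂] [CharP k₁ p] [CharP k₂ p]
    [IsAlgClosed k₁] [IsAlgClosed k₂] (m₁ m₂ : ℕ) (l₁ : Fin m₁ → k₁) (l₂ : Fin m₂ → k₂),
    IsConf l₁ → IsConf l₂ →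
    TameGroupIso p (marked l₁) (marked l₂) →
    m₁ = m₂ ∧ trdeg p l₁ = trdeg p l₂ :=
  fun p _ k₁ k₂ _ _ _ _ _ _ m₁ m₂ l₁ l₂ h₁ h₂ h => dim_eq p k₁ k₂ m₁ m₂ l₁ l₂ h₁ h₂ h

end Pool.Agent.Results.MP_ed0bc2_ag.GenusZeroEssentialDim
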